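import Mathlib

/-!
# Fermat liars of composite Fermat numbers: the lemmas

`key`: if a prime `p = k 2 ^ e + 1`, `k ≥ 3` odd, divides `2 ^ (2 ^ m) + 1`, then
`2 ^ (e ^ 2) < k ^ (2 ^ m)`.  Write `2 ^ m = q e + r`, `r < e`. Modulo `p` we have
`k 2 ^ e = -1` and `2 ^ (2 ^ m) = -1`, so `k ^ q = - (-1) ^ q 2 ^ r`; since `k` is odd and at
least `3` this is not an equality of integers, so `k ^ q + 2 ^ r ≥ p`.
-/

namespace H922.FL

theorem key {m e k p : ℕ} (hk : Odd k) (hk3 : 3 ≤ k) (he : 1 ≤ e)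
    (hpe : p = k * 2 ^ e + 1) (hd : p ∣ 2 ^ (2 ^ m) + 1) : 2 ^ (e ^ 2) < k ^ (2 ^ m) := by
  set N := 2 ^ m with hN
  set q := N / e with hq
  set r := N % e with hr
  have hqr : e * q + r = N := Nat.div_add_mod N e
  have hre : r < e := Nat.mod_lt _ he
  have h2 : ((2 : ZMod p)) ^ N = -1 := by
    have : ((2 ^ N + 1 : ℕ) : ZMod p) = 0 := (ZMod.natCast_eq_zero_iff _ _).2 hd
    push_cast at this
    exact eq_neg_of_add_eq_zero_left this
  have hk2 : ((k : ZMod p)) * 2 ^ e = -1 := by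
    have : ((k * 2 ^ e + 1 : ℕ) : ZMod p) = 0 := by
      rw [ZMod.natCast_eq_zero_iff, hpe]
    push_cast at this
    exact eq_neg_of_add_eq_zero_left this
  have h1 : (p : ℤ) ∣ (k : ℤ) ^ q + (-1) ^ q * 2 ^ r := by
    rw [← ZMod.intCast_zmod_eq_zero_iff_dvd]
    push_cast
    have h3 : (k : ZMod p) ^ q * 2 ^ (e * q) = (-1) ^ q := by
      rw [pow_mul, ← mul_pow, hk2]
    have h4 : (k : ZMod p) ^ q * 2 ^ N = (-1) ^ q * 2 ^ r := by
      rw [← hqr, pow_add, ← mul_assoc, h3]
    rw [h2] at h4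
    rw [← h4]
    ring
  have hne : (k : ℤ) ^ q + (-1) ^ q * 2 ^ r ≠ 0 := by
    intro h0
    rcases Nat.eq_zero_or_pos q with hq0 | hq0
    · rw [hq0] at h0
      have : (0 : ℤ) < 2 ^ r := by positivity
      simp at h0
      omega
    · rcases Nat.eq_zero_or_pos r with hr0 | hr0
      · rw [hr0] at h0
        have h5 : (3 : ℤ) ≤ (k : ℤ) ^ q := by
          calc (3 : ℤ) ≤ (k : ℤ) := by exact_mod_cast hk3
            _ ≤ (k : ℤ) ^ q := by
              apply le_self_pow₀
              · have : (3 : ℤ) ≤ k := by exact_mod_cast hk3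
                omega
              · omega
        rcases neg_one_pow_eq_or ℤ q with h6 | h6 <;> rw [h6] at h0 <;> omega
      · have h6 : Odd ((k : ℤ) ^ q + (-1) ^ q * 2 ^ r) := by
          apply Odd.add_even
          · exact (Int.odd_coe_nat k |>.2 hk).pow
          · apply Even.mul_left
            exact (even_two.pow_of_ne_zero (by omega))
        rw [h0] at h6
        exact absurd h6 (by decide)
  have h7 : (p : ℤ) ≤ |(k : ℤ) ^ q + (-1) ^ q * 2 ^ r| :=
    Int.le_of_dvd (abs_pos.2 hne) ((dvd_abs _ _).2 h1)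
  have h8 : |(k : ℤ) ^ q + (-1) ^ q * 2 ^ r| ≤ (k : ℤ) ^ q + 2 ^ r := by
    have ha : (0 : ℤ) ≤ (k : ℤ) ^ q := by positivity
    have hb : (0 : ℤ) ≤ 2 ^ r := by positivity
    rcases neg_one_pow_eq_or ℤ q with h6 | h6 <;> rw [h6, abs_le] <;> constructor <;> linarith
  have h9 : p ≤ k ^ q + 2 ^ r := by
    have := h7.trans h8
    exact_mod_cast this
  have h10 : 2 ^ r ≤ 2 ^ e := Nat.pow_le_pow_right (by norm_num) hre.le
  have h11 : 3 * 2 ^ e ≤ k * 2 ^ e := Nat.mul_le_mul_right _ hk3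
  have h12 : 2 ^ e < k ^ q := by
    have : 0 < 2 ^ e := by positivity
    omega
  calc 2 ^ (e ^ 2) = (2 ^ e) ^ e := by rw [← pow_mul, sq]
    _ < (k ^ q) ^ e := Nat.pow_lt_pow_left h12 (by omega)
    _ = k ^ (q * e) := by rw [← pow_mul]
    _ ≤ k ^ N := Nat.pow_le_pow_right (by omega) (by rw [← hqr, mul_comm q e]; omega)

/-- `v₂(φ(l.prod)) ≤ ∑ v₂(p - 1)` for a list of odd primes. -/
theorem totient_val (l : List ℕ) (hl : ∀ p ∈ l, p.Prime ∧ p ≠ 2) :
    (Nat.totient l.prod).factorization 2 ≤ (l.map fun p => (p - 1).factorization 2).sum := by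
  induction l with
  | nil => simp
  | cons p l ih =>
    have hp := (hl p (by simp)).1
    have hp2 := (hl p (by simp)).2
    have ih' := ih (fun q hq => hl q (by simp [hq]))
    have hne : Nat.totient l.prod ≠ 0 := by
      have : l.prod ≠ 0 := by
        apply List.prod_ne_zero
        intro h0
        exact (hl 0 (by simp [h0])).1.ne_zero rfl
      exact (Nat.totient_pos.2 (Nat.pos_of_ne_zero this)).ne'
    rw [List.prod_cons, List.map_cons, List.sum_cons]
    by_cases hd : p ∣ l.prod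
    · rw [Nat.totient_mul_of_prime_of_dvd hp hd, Nat.factorization_mul hp.ne_zero hne]
      have : p.factorization 2 = 0 := by
        rw [hp.factorization]
        simp [hp2]
      simp only [Finsupp.coe_add, Pi.add_apply, this]
      omega
    · rw [Nat.totient_mul_of_prime_of_not_dvd hp hd,
        Nat.factorization_mul (by have := hp.two_le; omega) hne]
      simp only [Finsupp.coe_add, Pi.add_apply]
      omega

/-- the number of solutions of `x ^ (2 ^ a) = 1` in the units of `ZMod n` -/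
theorem card_le (a n : ℕ) (hn : n ≠ 0) :
    Nat.card {x : (ZMod n)ˣ // x ^ (2 ^ a) = 1} ≤ 2 ^ ((Nat.totient n).factorization 2) := by
  have : NeZero n := ⟨hn⟩
  let H : Subgroup (ZMod n)ˣ := (powMonoidHom (2 ^ a)).ker
  have hmem : ∀ x : (ZMod n)ˣ, x ∈ H ↔ x ^ (2 ^ a) = 1 := by
    intro x
    rw [MonoidHom.mem_ker]
    rfl
  have hcard : Nat.card {x : (ZMod n)ˣ // x ^ (2 ^ a) = 1} = Nat.card H :=
    Nat.card_congr (Equiv.subtypeEquivRight fun x => (hmem x).symm)
  have : Fact (Nat.Prime 2) := ⟨Nat.prime_two⟩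
  have hP : IsPGroup 2 H := by
    intro x
    refine ⟨a, ?_⟩
    ext1
    exact (hmem x.1).1 x.2
  obtain ⟨j, hj⟩ := IsPGroup.iff_card.1 hP
  have hdvd : 2 ^ j ∣ Nat.totient n := by
    have := H.card_subgroup_dvd_card
    rw [hj, Nat.card_eq_fintype_card, ZMod.card_units_eq_totient] at this
    exact this
  rw [hcard, hj]
  apply Nat.pow_le_pow_right (by norm_num)
  exact (Nat.prime_two.pow_dvd_iff_le_factorization
    (Nat.totient_pos.2 (Nat.pos_of_ne_zero hn)).ne').1 hdvd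

/-- a prime divisor of a composite Fermat number is `k 2 ^ e + 1` with `k ≥ 3` odd -/
theorem shape {m p : ℕ} (hm : ¬ (Nat.fermatNumber m).Prime) (hp : p.Prime)
    (hd : p ∣ Nat.fermatNumber m) :
    ∃ k, Odd k ∧ 3 ≤ k ∧ 1 ≤ (p - 1).factorization 2 ∧
      p = k * 2 ^ ((p - 1).factorization 2) + 1 := by
  have hodd : Odd (Nat.fermatNumber m) := Nat.odd_fermatNumber m
  have hp2 : p ≠ 2 := by
    rintro rfl
    exact absurd hodd (Nat.not_odd_iff_even.2 (even_iff_two_dvd.2 hd))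
  have hp3 : 3 ≤ p := by
    have := hp.two_le
    omega
  have h1 : p - 1 ≠ 0 := by omega
  have hpodd : Odd p := hp.odd_of_ne_two hp2
  set e := (p - 1).factorization 2 with he
  have hfac : 2 ^ e * ((p - 1) / 2 ^ e) = p - 1 := Nat.ordProj_mul_ordCompl_eq_self (p - 1) 2
  set k := (p - 1) / 2 ^ e with hk
  have hkodd : Odd k := by
    have := Nat.not_dvd_ordCompl Nat.prime_two h1
    rw [← Nat.not_even_iff_odd, even_iff_two_dvd]
    exact this
  have hpk : p = k * 2 ^ e + 1 := by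
    rw [mul_comm]
    omega
  have he1 : 1 ≤ e := by
    rw [he]
    have : 2 ^ 1 ∣ p - 1 := by
      obtain ⟨c, hc⟩ := hpodd
      exact ⟨c, by omega⟩
    exact (Nat.prime_two.pow_dvd_iff_le_factorization h1).1 this
  refine ⟨k, hkodd, ?_, he1, hpk⟩
  by_contra hlt
  have hk1 : k = 1 := by
    obtain ⟨c, hc⟩ := hkodd
    omega
  rw [hk1, one_mul] at hpk
  have hpp : (2 ^ e + 1).Prime := hpk ▸ hp
  obtain ⟨j, hj⟩ := Nat.pow_of_pow_add_prime (by norm_num : 1 < 2) (by omega : e ≠ 0) hpp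
  have hpj : p = Nat.fermatNumber j := by
    rw [hpk, hj, Nat.fermatNumber]
  by_cases hjm : j = m
  · subst hjm
    exact hm (hpj ▸ hp)
  · have hcop := Nat.coprime_fermatNumber_fermatNumber hjm
    rw [← hpj] at hcop
    exact hp.one_lt.ne' (Nat.Coprime.eq_one_of_dvd hcop hd)

end H922.FL
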