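import Pool.Agent.Run7.h922.FL.Base

/-!
# Fermat liars of composite Fermat numbers: the count
-/

namespace H922.FL

/-- For a prime `p = k 2 ^ e + 1` dividing a composite Fermat number,
`e (1 + (5/4) / √(2 ^ m)) ≤ log₂ p`. -/
theorem local_ineq {m p : ℕ} (hm : ¬ (Nat.fermatNumber m).Prime) (hp : p.Prime)
    (hd : p ∣ Nat.fermatNumber m) :
    ((p - 1).factorization 2 : ℝ) * (1 + (5 / 4) / √(2 ^ m)) ≤ Real.logb 2 p := by
  obtain ⟨k, hkodd, hk3, he1, hpk⟩ := shape hm hp hd
  set e := (p - 1).factorization 2 with he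
  have hkey := key (m := m) hkodd hk3 he1 hpk (by simpa [Nat.fermatNumber] using hd)
  set κ := Real.logb 2 k with hκ
  have hkpos : (0 : ℝ) < k := by positivity
  have hN : (0 : ℝ) < 2 ^ m := by positivity
  have h1 : 25 / 16 ≤ κ := by
    have h3 : (25 / 16 : ℝ) ≤ Real.logb 2 3 := by
      rw [Real.le_logb_iff_rpow_le (by norm_num) (by norm_num)]
      have h4 : ((2 : ℝ) ^ (25 / 16 : ℝ)) ^ (16 : ℕ) ≤ 3 ^ (16 : ℕ) := by
        rw [← Real.rpow_natCast, ← Real.rpow_mul (by norm_num)]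
        norm_num
      exact le_of_pow_le_pow_left₀ (by norm_num) (by norm_num) h4
    have h5 : Real.logb 2 3 ≤ κ := by
      rw [hκ]
      apply Real.logb_le_logb_of_le (by norm_num) (by norm_num)
      exact_mod_cast hk3
    linarith
  have h2 : (e : ℝ) ^ 2 ≤ κ * 2 ^ m := by
    have h3 : ((2 : ℝ)) ^ (e ^ 2) ≤ (k : ℝ) ^ (2 ^ m) := by exact_mod_cast hkey.le
    have h4 := Real.logb_le_logb_of_le (b := 2) (by norm_num) (by positivity) h3
    rw [Real.logb_pow, Real.logb_pow, Real.logb_self_eq_one (by norm_num)] at h4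
    push_cast at h4
    rw [hκ]
    linarith
  have h3 : (e : ℝ) * ((5 / 4) / √(2 ^ m)) ≤ κ := by
    have hs : 0 < √((2 : ℝ) ^ m) := Real.sqrt_pos.2 hN
    rw [← mul_div_assoc, div_le_iff₀ hs]
    have hκ0 : 0 ≤ κ := by linarith
    refine le_of_pow_le_pow_left₀ two_ne_zero (mul_nonneg hκ0 hs.le) ?_
    rw [mul_pow, mul_pow, Real.sq_sqrt hN.le]
    nlinarith [mul_le_mul_of_nonneg_left h2 (by linarith : (0 : ℝ) ≤ κ),
      mul_nonneg (sub_nonneg.2 h1) (mul_nonneg (by linarith : (0 : ℝ) ≤ κ) hN.le),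
      sq_nonneg (e : ℝ)]
  have h4 : (e : ℝ) + κ ≤ Real.logb 2 p := by
    have h5 : Real.logb 2 (k * 2 ^ e) = κ + e := by
      rw [Real.logb_mul hkpos.ne' (by positivity), Real.logb_pow,
        Real.logb_self_eq_one (by norm_num)]
      ring
    have h6 : Real.logb 2 (k * 2 ^ e) ≤ Real.logb 2 p := by
      apply Real.logb_le_logb_of_le (by norm_num) (by positivity)
      rw [hpk]
      push_cast
      linarith
    linarith
  linarith

theorem list_ineq (c : ℝ) (l : List ℕ)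
    (hl : ∀ p ∈ l, 0 < p ∧ ((p - 1).factorization 2 : ℝ) * (1 + c) ≤ Real.logb 2 p) :
    (((l.map fun p => (p - 1).factorization 2).sum : ℕ) : ℝ) * (1 + c) ≤
      Real.logb 2 (l.prod : ℕ) := by
  induction l with
  | nil => simp
  | cons p l ih =>
    have h1 := hl p (by simp)
    have ih' := ih (fun q hq => hl q (by simp [hq]))
    have hpos : 0 < l.prod := by
      apply List.prod_pos
      intro q hq
      exact (hl q (by simp [hq])).1
    rw [List.prod_cons, List.map_cons, List.sum_cons]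
    push_cast
    have hp0 : (p : ℝ) ≠ 0 := by exact_mod_cast h1.1.ne'
    have hl0 : ((l.prod : ℕ) : ℝ) ≠ 0 := by exact_mod_cast hpos.ne'
    push_cast at hl0
    rw [Real.logb_mul hp0 hl0]
    have h2 := h1.2
    push_cast at ih'
    linarith

theorem main (m : ℕ) (hm : ¬ (Nat.fermatNumber m).Prime) :
    (2 : ℝ) ^ ((Nat.totient (Nat.fermatNumber m)).factorization 2) ≤
      3 * Nat.fermatNumber m / 2 ^ (5 / 4 * √(2 ^ m) : ℝ) := by
  set n := Nat.fermatNumber m with hn
  have hn0 : n ≠ 0 := by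
    have := Nat.three_le_fermatNumber m
    omega
  set l := n.primeFactorsList with hl
  have hprod : l.prod = n := Nat.prod_primeFactorsList hn0
  have hmem : ∀ p ∈ l, p.Prime ∧ p ∣ n := by
    intro p hp
    exact ⟨Nat.prime_of_mem_primeFactorsList hp, Nat.dvd_of_mem_primeFactorsList hp⟩
  have hodd : Odd n := Nat.odd_fermatNumber m
  set E := (l.map fun p => (p - 1).factorization 2).sum with hE
  have hE1 : (Nat.totient n).factorization 2 ≤ E := by
    have := totient_val l (fun p hp => ⟨(hmem p hp).1, by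
      rintro rfl
      exact absurd hodd (Nat.not_odd_iff_even.2 (even_iff_two_dvd.2 (hmem 2 hp).2))⟩)
    rwa [hprod] at this
  set c : ℝ := (5 / 4) / √(2 ^ m) with hc
  have hE2 : (E : ℝ) * (1 + c) ≤ Real.logb 2 n := by
    have := list_ineq c l (fun p hp => ⟨(hmem p hp).1.pos,
      local_ineq hm (hmem p hp).1 (hmem p hp).2⟩)
    rwa [hprod] at this
  have hN : (0 : ℝ) < 2 ^ m := by positivity
  set s := √((2 : ℝ) ^ m) with hs
  have hs0 : 0 < s := Real.sqrt_pos.2 hN
  have hss : s * s = 2 ^ m := Real.mul_self_sqrt hN.le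
  have hL : s * s ≤ Real.logb 2 n := by
    rw [hss]
    have h1 : Real.logb 2 ((2 : ℝ) ^ (2 ^ m)) = 2 ^ m := by
      rw [Real.logb_pow, Real.logb_self_eq_one (by norm_num)]
      push_cast
      ring
    rw [← h1]
    apply Real.logb_le_logb_of_le (by norm_num) (by positivity)
    rw [hn, Nat.fermatNumber]
    push_cast
    linarith
  set L := Real.logb 2 n with hLdef
  have hEL : (E : ℝ) ≤ L + 25 / 16 - 5 / 4 * s := by
    have hc0 : 0 < 1 + c := by positivity
    have h1 : (E : ℝ) ≤ L / (1 + c) := by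
      rw [le_div_iff₀ hc0]
      exact hE2
    refine h1.trans ?_
    rw [div_le_iff₀ hc0]
    have hcs : c * s = 5 / 4 := by
      rw [hc]
      field_simp
    have hcpos : 0 < c := by positivity
    -- (L + 25/16 - 5/4 s)(1 + c) - L = L c + 25/16 (1 + c) - 5/4 s - 25/16
    have h2 : s * (5 / 4) ≤ L * c := by
      have := mul_le_mul_of_nonneg_right hL hcpos.le
      calc s * (5 / 4) = s * s * c := by rw [← hcs]; ring
        _ ≤ L * c := this
    nlinarith
  have h25 : (2 : ℝ) ^ (25 / 16 : ℝ) ≤ 3 := by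
    have h4 : ((2 : ℝ) ^ (25 / 16 : ℝ)) ^ (16 : ℕ) ≤ 3 ^ (16 : ℕ) := by
      rw [← Real.rpow_natCast, ← Real.rpow_mul (by norm_num)]
      norm_num
    exact le_of_pow_le_pow_left₀ (by norm_num) (by norm_num) h4
  calc (2 : ℝ) ^ ((Nat.totient n).factorization 2) ≤ 2 ^ E :=
        pow_le_pow_right₀ (by norm_num) hE1
    _ = 2 ^ (E : ℝ) := (Real.rpow_natCast 2 E).symm
    _ ≤ 2 ^ (L + 25 / 16 - 5 / 4 * s) := Real.rpow_le_rpow_of_exponent_le (by norm_num) hEL
    _ = n * 2 ^ (25 / 16 : ℝ) / 2 ^ (5 / 4 * s) := by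
      rw [Real.rpow_sub (by norm_num), Real.rpow_add (by norm_num),
        Real.rpow_logb (by norm_num) (by norm_num) (by positivity)]
    _ ≤ 3 * n / 2 ^ (5 / 4 * s) := by
      apply div_le_div_of_nonneg_right _ (by positivity)
      nlinarith [(by positivity : (0 : ℝ) < n)]

/-- the solutions of `b ^ (2 ^ a) = 1` in `ZMod n` are units -/
theorem card_zmod_le (a n : ℕ) (hn : n ≠ 0) :
    Nat.card {b : ZMod n // b ^ (2 ^ a) = 1} ≤ 2 ^ ((Nat.totient n).factorization 2) := by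
  have : NeZero n := ⟨hn⟩
  refine le_trans ?_ (card_le a n hn)
  let f : {b : ZMod n // b ^ (2 ^ a) = 1} → {x : (ZMod n)ˣ // x ^ (2 ^ a) = 1} := fun b =>
    ⟨Units.ofPowEqOne b.1 (2 ^ a) b.2 (by positivity), by
      ext
      simp⟩
  apply Nat.card_le_card_of_injective f
  intro b c hbc
  have := congrArg (fun x => ((x.1 : (ZMod n)ˣ) : ZMod n)) hbc
  exact Subtype.ext (by simpa [f] using this)

/-- for a prime `p` at least `p - 1` elements of `ZMod p` satisfy `b ^ (p - 1) = 1` -/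
theorem card_ge (p : ℕ) (hp : p.Prime) :
    p - 1 ≤ Nat.card {b : ZMod p // b ^ (p - 1) = 1} := by
  have : Fact p.Prime := ⟨hp⟩
  have h1 : Nat.card (ZMod p)ˣ = p - 1 := by
    rw [Nat.card_eq_fintype_card, ZMod.card_units]
  let f : (ZMod p)ˣ → {b : ZMod p // b ^ (p - 1) = 1} := fun x =>
    ⟨x.1, ZMod.pow_card_sub_one_eq_one x.ne_zero⟩
  refine h1.symm.le.trans (Nat.card_le_card_of_injective f ?_)
  intro b c hbc
  have := congrArg (fun x => (x.1 : ZMod p)) hbc
  exact Units.ext (by simpa [f] using this)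

/-- the bound of `main` is smaller than `F_m - 1` for `m ≥ 2` -/
theorem bound_lt (m : ℕ) (hm : 2 ≤ m) :
    3 * (Nat.fermatNumber m : ℝ) / (2 : ℝ) ^ ((5 / 4 : ℝ) * √((2 : ℝ) ^ m)) <
      ((Nat.fermatNumber m - 1 : ℕ) : ℝ) := by
  have h4 : (2 : ℝ) ≤ √((2 : ℝ) ^ m) := by
    apply Real.le_sqrt_of_sq_le
    have : (2 : ℝ) ^ 2 ≤ 2 ^ m := pow_le_pow_right₀ (by norm_num) hm
    exact this
  have h5 : (4 : ℝ) ≤ (2 : ℝ) ^ ((5 / 4 : ℝ) * √((2 : ℝ) ^ m)) := by
    calc (4 : ℝ) = (2 : ℝ) ^ ((2 : ℕ) : ℝ) := by rw [Real.rpow_natCast]; norm_num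
      _ ≤ _ := by
        apply Real.rpow_le_rpow_of_exponent_le (by norm_num)
        push_cast
        linarith
  have h6 : (5 : ℕ) ≤ Nat.fermatNumber m := by
    have : Nat.fermatNumber 1 ≤ Nat.fermatNumber m := Nat.fermatNumber_mono (by omega)
    simpa [Nat.fermatNumber] using this
  have h7 : (5 : ℝ) ≤ (Nat.fermatNumber m : ℝ) := by exact_mod_cast h6
  rw [div_lt_iff₀ (by positivity), Nat.cast_sub (by omega)]
  push_cast
  nlinarith

end H922.FL
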